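import Mathlib
import Pool.Agent.H4.VDm

set_option autoImplicit false

namespace Pool.Agent.Results.MP_973d57_co.Yes

open Finset Matrix Pool.Agent.H4.VDm

lemma piv {K : Type} [Field K] {ν : K → WithTop ℝ} (hν : IsVal ν) (σ : K →+* K)
    (hσ : ∀ a, σ (σ a) = a) (hv : ∀ a, ν (σ a) = ν a) (ω : K) (hω : ω + σ ω = 1) {n : ℕ}
    (P Q : Matrix (Fin n) (Fin n) K) (z : Fin n → K) (α : K) (a0 : α ≠ 0) (a1 : σ α = α)
    (h : ∀ r s, ∑ i, (P i r * σ (Q i s) + Q i r * σ (P i s)) + α * (z r * σ (z s)) = 0) :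
    Good fun S => ν (mix P Q S).det := by
  by_cases h0 : ∀ S, (mix P Q S).det = 0
  · exact fun u S T k => (k ((hν.top _).2 (h0 S))).elim
  obtain ⟨S, d0⟩ := not_forall.1 h0
  have u0 : IsUnit (mix P Q S).det := Ne.isUnit d0
  obtain ⟨s, hs⟩ : ∃ s : ℝ, ν (mix P Q S).det = s :=
    (WithTop.ne_top_iff_exists.1 fun h => d0 ((hν.top _).1 h)).imp fun _ h => h.symm
  obtain ⟨N, hN⟩ : ∃ N, N = mix Q P S * (mix P Q S)⁻¹ := ⟨_, rfl⟩
  have e0 : N * mix P Q S = mix Q P S := by
    rw [hN, Matrix.mul_assoc, nonsing_inv_mul _ u0, Matrix.mul_one]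
  have e1 : ∀ R, mix N 1 R * mix P Q S = mix P Q (symmDiff S R) := fun R => by
    ext i j
    by_cases k : i ∈ R
    · have : (mix N 1 R * mix P Q S) i j = (N * mix P Q S) i j := by simp [mul_apply, mix, k]
      rw [this, e0]; by_cases k' : i ∈ S <;> simp [mix, mem_symmDiff, k, k']
    · have : (mix N 1 R * mix P Q S) i j = ((1 : Matrix (Fin n) (Fin n) K) * mix P Q S) i j := by
        simp only [mul_apply, mix, of_apply, k, if_false]
      rw [this, Matrix.one_mul]; by_cases k' : i ∈ S <;> simp [mix, mem_symmDiff, k, k']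
  obtain ⟨w, hw⟩ : ∃ w, w ᵥ* mix P Q S = z :=
    ⟨z ᵥ* (mix P Q S)⁻¹, by rw [vecMul_vecMul, nonsing_inv_mul _ u0, vecMul_one]⟩
  have e2 : (mix P Q S)ᵀ * (mix Q P S).map σ + (mix Q P S)ᵀ * (mix P Q S).map σ =
      (mix P Q S)ᵀ * ((-α) • vecMulVec w fun j => σ (w j)) * (mix P Q S).map σ := by
    ext r s
    have k1 : ((mix P Q S)ᵀ * ((-α) • vecMulVec w fun j => σ (w j)) * (mix P Q S).map σ) r s =
        - α * (z r * σ (z s)) := by
      rw [← hw]
      simp only [mul_apply, vecMul, dotProduct, transpose_apply, Matrix.smul_apply, vecMulVec_apply,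
        map_apply, smul_eq_mul, map_sum, map_mul, sum_mul, mul_sum]
      exact sum_congr rfl fun i _ => sum_congr rfl fun j _ => by ring
    rw [k1, neg_mul, eq_neg_iff_add_eq_zero, ← h r s]
    simp only [Matrix.add_apply, mul_apply, transpose_apply, map_apply, ← sum_add_distrib]
    refine congrArg (· + _) (sum_congr rfl fun i _ => ?_)
    by_cases k : i ∈ S <;> simp [mix, k, add_comm]
  have e3 : N.map σ + Nᵀ = (-α) • vecMulVec w fun j => σ (w j) := by
    have u1 : IsUnit ((mix P Q S).map σ).det := by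
      rw [← RingHom.mapMatrix_apply, ← RingHom.map_det]; exact u0.map σ
    rw [← e0, Matrix.map_mul, transpose_mul, ← Matrix.mul_assoc, ← Matrix.add_mul, ← Matrix.mul_add] at e2
    have := ((isUnit_iff_isUnit_det _).2 u1).mul_right_cancel e2
    exact ((isUnit_iff_isUnit_det _).2 (by rwa [det_transpose])).mul_left_cancel this
  refine twist _ _ S s (fun R => ?_) (core hν σ hσ hv ω hω N (fun j => σ (w j)) (-α)
    (neg_ne_zero.2 a0) (by rw [map_neg, a1]) fun i j => ?_)
  · rw [← e1, det_mul, hν.mul, hs]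
  · have := congrFun (congrFun e3 i) j
    simp only [Matrix.add_apply, map_apply, transpose_apply, Matrix.smul_apply, vecMulVec_apply,
      smul_eq_mul] at this
    rw [hσ, add_comm, this, mul_comm (w i)]

theorem result {K : Type} [Field K] (ν : K → WithTop ℝ) (hν : IsVal ν) (σ : K ≃+* K)
    (hσ : ∀ a, σ (σ a) = a) (hid : ∃ a, σ a ≠ a) (hv : ∀ a, ν (σ a) = ν a) (n : ℕ)
    {V : Type} [AddCommGroup V] [Module K V] (b : V → V → K)
    (b1 : ∀ x y z, b (x + y) z = b x z + b y z) (b2 : ∀ x y z, b x (y + z) = b x y + b x z)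
    (b3 : ∀ (l m : K) x y, b (l • x) (m • y) = l * σ m * b x y) (b4 : ∀ x y, b x y = σ (b y x))
    (β : Module.Basis (Fin n ⊕ Fin n ⊕ Unit) K V) (e f : Fin n → V) (g : V)
    (he : ∀ i, e i = β (.inl i)) (hf : ∀ i, f i = β (.inr (.inl i))) (hg : g = β (.inr (.inr ())))
    (ee : ∀ i j, b (e i) (e j) = 0) (ff : ∀ i j, b (f i) (f j) = 0)
    (ef : ∀ i j, b (e i) (f j) = if i = j then 1 else 0)
    (eg : ∀ i, b (e i) g = 0) (fg : ∀ i, b (f i) g = 0) (gg : b g g ≠ 0)
    (L : Submodule K V) (hL : ∀ x ∈ L, ∀ y ∈ L, b x y = 0) (v : Module.Basis (Fin n) K L) :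
    IsValDelta fun S : Finset (Fin n) => ν (Matrix.of fun r i : Fin n =>
      β.repr (v r) (if i ∈ S then .inl i else .inr (.inl i))).det := by
  obtain ⟨a, ha⟩ := hid
  have a0 : a - σ a ≠ 0 := sub_ne_zero.2 ha.symm
  have a1 : σ a - a ≠ 0 := sub_ne_zero.2 ha
  let B : V →ₗ[K] V →ₛₗ[σ.toRingHom] K := LinearMap.mk₂'ₛₗ (RingHom.id K) σ.toRingHom b b1
    (fun l x y => by simpa using b3 l 1 x y) b2 (fun l x y => by simpa using b3 1 l x y)
  have fe : ∀ i j, b (f i) (e j) = if i = j then 1 else 0 := fun i j => by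
    rw [b4, ef]; by_cases k : i = j <;> simp [k, eq_comm (a := j)]
  have ge : ∀ i, b g (e i) = 0 := fun i => by rw [b4, eg, map_zero]
  have gf : ∀ i, b g (f i) = 0 := fun i => by rw [b4, fg, map_zero]
  have := geo _ (piv hν σ.toRingHom hσ hv (a / (a - σ a)) (by
      simp only [RingEquiv.toRingHom_eq_coe, RingHom.coe_coe, map_div₀, map_sub, hσ]
      field_simp; ring)
    (of fun i r => β.repr (v r) (.inl i)) (of fun i r => β.repr (v r) (.inr (.inl i)))
    (fun r => β.repr (v r) (.inr (.inr ()))) (b g g) gg (b4 g g).symm fun r s => by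
      have k : B (v r) (v s) = 0 := hL _ (v r).2 _ (v s).2
      rw [← β.sum_repr (v r), ← β.sum_repr (v s)] at k
      simp only [map_sum, LinearMap.sum_apply, map_smul, LinearMap.map_smulₛₗ, LinearMap.smul_apply,
        Fintype.sum_sum_type, ← he, ← hf, Fintype.sum_unique, map_add, LinearMap.add_apply] at k
      simp only [B, LinearMap.mk₂'ₛₗ_apply, PUnit.default_eq_unit, ← hg, ee, ff, ef, fe, eg, fg, ge, gf] at k
      rw [← k]
      simp [sum_add_distrib, mul_comm (σ _)]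
      ring)
  convert this using 3 with S
  rw [← det_transpose]
  congr 1
  ext i r
  by_cases k : i ∈ S <;> simp [mix, k]

end Pool.Agent.Results.MP_973d57_co.Yes
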